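import Pool.Agent.H53.VK.Stm

/-! # Crew VK, part LIN: families of segments inside one line -/

set_option autoImplicit false

namespace VK

theorem lin75_frame (t g : Fn) (hd : det t g ≠ 0) (z w : Pt) (h1 : ev t z = ev t w)
    (h2 : ev g z = ev g w) : z = w := by
  simp only [ev, det] at *
  have e1 : (t.a * g.b - t.b * g.a) * (z.1 - w.1) = 0 := by linear_combination g.b * h1 - t.b * h2
  have e2 : (t.a * g.b - t.b * g.a) * (z.2 - w.2) = 0 := by linear_combination t.a * h2 - g.a * h1
  have f1 := (mul_eq_zero.1 e1).resolve_left hd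
  have f2 := (mul_eq_zero.1 e2).resolve_left hd
  ext
  · linarith
  · linarith

theorem lin75_comb (f : Fn) (p q : Pt) (α β : ℝ) (h : α + β = 1) :
    ev f (α • p + β • q) = α * ev f p + β * ev f q := by
  simp only [ev, Prod.fst_add, Prod.snd_add, Prod.smul_fst, Prod.smul_snd, smul_eq_mul]
  linear_combination (-f.c) * h

/-- a point of the open segment with prescribed `t` -/
theorem lin75_pt (t g : Fn) (p q : Pt) (m : ℝ) (h1 : ev t p < m) (h2 : m < ev t q)
    (gp : ev g p = 0) (gq : ev g q = 0) :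
    ∃ z, z ∈ openSegment ℝ p q ∧ z ∈ openSegment ℝ q p ∧ ev t z = m ∧ ev g z = 0 := by
  have hpos : 0 < ev t q - ev t p := by linarith
  set β : ℝ := (m - ev t p) / (ev t q - ev t p) with hβ
  have hβ0 : 0 < β := div_pos (by linarith) hpos
  have hβ1 : β < 1 := (div_lt_one hpos).2 (by linarith)
  have hsum : (1 - β) + β = 1 := by ring
  have hz : (1 - β) • p + β • q ∈ openSegment ℝ p q := ⟨1 - β, β, by linarith, hβ0, hsum, rfl⟩
  refine ⟨(1 - β) • p + β • q, hz, ?_, ?_, ?_⟩
  · rw [openSegment_symm]; exact hz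
  · rw [lin75_comb t p q _ _ hsum]
    have : β * (ev t q - ev t p) = m - ev t p := by rw [hβ]; field_simp
    linarith
  · rw [lin75_comb g p q _ _ hsum, gp, gq]; ring

theorem lin75_meet (t g : Fn) (hd : det t g ≠ 0) (p q r s : Pt) (gp : ev g p = 0) (gq : ev g q = 0)
    (gr : ev g r = 0) (gs : ev g s = 0) (h1 : ev t p < ev t q) (h2 : ev t p < ev t s)
    (h3 : ev t r < ev t q) (h4 : ev t r < ev t s) :
    ∃ z, (z ∈ openSegment ℝ p q ∧ z ∈ openSegment ℝ q p) ∧
      (z ∈ openSegment ℝ r s ∧ z ∈ openSegment ℝ s r) := by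
  obtain ⟨m, hm1, hm2⟩ := exists_between (show max (ev t p) (ev t r) < min (ev t q) (ev t s) from
    lt_min (max_lt h1 h3) (max_lt h2 h4))
  obtain ⟨z, a1, a2, a3, a4⟩ := lin75_pt t g p q m (lt_of_le_of_lt (le_max_left _ _) hm1)
    (lt_of_lt_of_le hm2 (min_le_left _ _)) gp gq
  obtain ⟨w, b1, b2, b3, b4⟩ := lin75_pt t g r s m (lt_of_le_of_lt (le_max_right _ _) hm1)
    (lt_of_lt_of_le hm2 (min_le_right _ _)) gr gs
  have : z = w := lin75_frame t g hd z w (by rw [a3, b3]) (by rw [a4, b4])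
  subst this
  exact ⟨z, ⟨a1, a2⟩, b1, b2⟩

theorem LIN_proved : LIN_stmt := by
  classical
  intro A B t g hAB hd hz E hE
  obtain ⟨hsub, hdis⟩ := hE
  have hmemA : ∀ e ∈ E, e.1 ∈ A := fun e he => (Finset.mem_product.1 (hsub he)).1
  have hmemB : ∀ e ∈ E, e.2 ∈ B := fun e he => (Finset.mem_product.1 (hsub he)).2
  have gA : ∀ e ∈ E, ev g e.1 = 0 := fun e he => hz _ (Finset.mem_union_left _ (hmemA e he))
  have gB : ∀ e ∈ E, ev g e.2 = 0 := fun e he => hz _ (Finset.mem_union_right _ (hmemB e he))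
  have hne : ∀ e ∈ E, ev t e.1 ≠ ev t e.2 := by
    intro e he h
    have : e.1 = e.2 := lin75_frame t g hd _ _ h (by rw [gA e he, gB e he])
    exact Finset.disjoint_left.1 hAB (hmemA e he) (this ▸ hmemB e he)
  let φ : Pt × Pt → Pt × Bool := fun e => (e.1, decide (ev t e.1 < ev t e.2))
  have hinj : Set.InjOn φ (E : Set (Pt × Pt)) := by
    intro e he f hf hef
    simp only [φ, Prod.mk.injEq] at hef
    obtain ⟨h1, h2⟩ := hef
    by_contra hne'
    have hD := hdis e he f hf hne'
    have he' : e ∈ E := he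
    have hf' : f ∈ E := hf
    by_cases hlt : ev t e.1 < ev t e.2
    · have hlt2 : ev t f.1 < ev t f.2 := by
        have : decide (ev t e.1 < ev t e.2) = true := decide_eq_true hlt
        rw [this] at h2
        exact of_decide_eq_true h2.symm
      obtain ⟨z, ⟨z1, _⟩, z2, _⟩ := lin75_meet t g hd e.1 e.2 f.1 f.2 (gA e he') (gB e he')
        (gA f hf') (gB f hf') hlt (by rw [h1]; exact hlt2) (by rw [← h1]; exact hlt) hlt2
      exact Set.disjoint_left.1 hD z1 z2
    · have hlt' : ev t e.2 < ev t e.1 := lt_of_le_of_ne (not_lt.1 hlt) (hne e he').symm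
      have hlt2 : ¬ ev t f.1 < ev t f.2 := by
        have : decide (ev t e.1 < ev t e.2) = false := decide_eq_false hlt
        rw [this] at h2
        exact of_decide_eq_false h2.symm
      have hlt2' : ev t f.2 < ev t f.1 := lt_of_le_of_ne (not_lt.1 hlt2) (hne f hf').symm
      obtain ⟨z, ⟨_, z1⟩, _, z2⟩ := lin75_meet t g hd e.2 e.1 f.2 f.1 (gB e he') (gA e he')
        (gB f hf') (gA f hf') hlt' (by rw [← h1]; exact hlt') (by rw [h1]; exact hlt2') hlt2'
      exact Set.disjoint_left.1 hD z1 z2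
  have hcardU : (A ×ˢ (Finset.univ : Finset Bool)).card = 2 * A.card := by
    rw [Finset.card_product]; simp [mul_comm]
  refine ⟨?_, ?_, ?_⟩
  · rw [← hcardU]
    apply Finset.card_le_card_of_injOn φ _ hinj
    intro e he
    simp only [φ, Finset.coe_product, Set.mem_prod, Finset.mem_coe, Finset.mem_univ, and_true]
    exact hmemA e he
  · rintro ⟨a0, ha0, hmin⟩
    have h1 : E.card ≤ ((A ×ˢ (Finset.univ : Finset Bool)).erase (a0, false)).card := by
      apply Finset.card_le_card_of_injOn φ _ hinj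
      intro e he
      have he' : e ∈ E := he
      rw [Finset.mem_coe, Finset.mem_erase]
      refine ⟨?_, ?_⟩
      · intro h
        simp only [φ, Prod.mk.injEq, decide_eq_false_iff_not] at h
        obtain ⟨h1, h2⟩ := h
        have h3 := hmin e.2 (Finset.mem_union_right _ (hmemB e he'))
        rw [← h1] at h3
        exact h2 (lt_of_le_of_ne h3 (hne e he'))
      · simp only [φ, Finset.mem_product, Finset.mem_univ, and_true]
        exact hmemA e he'
    rw [Finset.card_erase_of_mem (by simp [ha0]), hcardU] at h1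
    have h2 : 1 ≤ A.card := Finset.card_pos.2 ⟨a0, ha0⟩
    omega
  · intro hbef
    rw [Finset.card_le_one]
    intro e he f hf
    by_contra hne'
    have hD := hdis e he f hf hne'
    obtain ⟨z, ⟨z1, _⟩, z2, _⟩ := lin75_meet t g hd e.1 e.2 f.1 f.2 (gA e he) (gB e he)
        (gA f hf) (gB f hf) (hbef _ (hmemA e he) _ (hmemB e he)) (hbef _ (hmemA e he) _ (hmemB f hf))
        (hbef _ (hmemA f hf) _ (hmemB e he)) (hbef _ (hmemA f hf) _ (hmemB f hf))
    exact Set.disjoint_left.1 hD z1 z2

end VK
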