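import Pool.Agent.H75.VK.LIN

/-! # Crew VK, part MCU: cut through a vertex of the same colour -/

set_option autoImplicit false

namespace VK

theorem mcu75_neg (g : Fn) (z : Pt) : ev (lin (-1) g 0 g 0) z = - ev g z := by
  rw [ev_lin]; ring

theorem mcu75_det (h g : Fn) (hd : det h g ≠ 0) : det h (lin (-1) g 0 g 0) ≠ 0 := by
  have : det h (lin (-1) g 0 g 0) = - det h g := by simp only [det, lin]; ring
  rw [this]; exact neg_ne_zero.2 hd

/-- one closed side: `f ≥ 0`, `#A = 1` on the line: an end run -/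
theorem mcu75_one (hERM : ERM_stmt) (A B : Finset Pt) (f h : Fn) (v : Pt) (hAB : Disjoint A B)
    (hd : det h f ≠ 0) (hv : v ∈ A) (fv : ev f v = 0)
    (hsupp : ∀ z ∈ A ∪ B, 0 ≤ ev f z) (hvm : ∀ z ∈ A ∪ B, ev f z = 0 → z ≠ v → ev h v < ev h z)
    (hA1 : ∀ z ∈ A, ev f z = 0 → z = v) (hB1 : ∃ z ∈ B, ev f z = 0) : EndRun A B := by
  obtain ⟨b, hb, fb⟩ := hB1
  have hbv : b ≠ v := by
    rintro rfl
    exact Finset.disjoint_left.1 hAB hv hb
  refine hERM A B h f v hAB hd hv fv hsupp ⟨b, Finset.mem_union_right _ hb, hbv, fb⟩ ?_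
  intro z hz hzv fz
  refine ⟨?_, hvm z hz fz hzv⟩
  rcases Finset.mem_union.1 hz with h1 | h1
  · exact absurd (hA1 z h1 fz) hzv
  · exact h1

/-- one closed side, the neighbour of `v` on the line has the other colour -/
theorem mcu75_two (A B : Finset Pt) (f h : Fn) (v y : Pt)
    (hd : det h f ≠ 0) (hv : v ∈ A) (fv : ev f v = 0) (hy : y ∈ B) (fy : ev f y = 0)
    (hsupp : ∀ z ∈ A ∪ B, 0 ≤ ev f z) (hvy : ev h v < ev h y)
    (hyz : ∀ z ∈ A ∪ B, ev f z = 0 → z = v ∨ z = y ∨ ev h y < ev h z) : EndRun A B := by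
  right
  refine ⟨h, f, v, y, ⟨hd, hv, hy, ?_, fv, fy, hvy, ?_⟩⟩
  · intro z hz
    exact hsupp z (by rw [Finset.union_comm]; exact hz)
  · intro z hz
    exact hyz z (by rw [Finset.union_comm]; exact hz)

theorem MCU_proved (hERM : ERM_stmt) (hCUT : CUT_stmt) (hLIN : LIN_stmt) (hBAS : BAS_stmt) :
    MCU_stmt := by
  classical
  obtain ⟨bMono, bSub, bSym, bOne, bHs, bHm, bEs⟩ := hBAS
  intro M A B g h v hM1 hM2 hAB hH hIH hvA gv hv0 hd hvm hl0 hl1 hl2 hneg hpos
  -- the other functional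
  set g' : Fn := lin (-1) g 0 g 0 with hg'
  have eg' : ∀ z, ev g' z = - ev g z := mcu75_neg g
  have hd' : det h g' ≠ 0 := mcu75_det h g hd
  have hNc : Nc g := by
    by_contra hc
    simp only [Nc, not_or, not_not] at hc
    apply hd
    simp only [det, hc.1, hc.2]; ring
  set A0 := A.filter (fun z => ev g z = 0) with hA0
  set B0 := B.filter (fun z => ev g z = 0) with hB0
  set A1 := A.filter (fun z => 0 ≤ ev g z) with hA1
  set B1 := B.filter (fun z => 0 ≤ ev g z) with hB1
  set A2 := A.filter (fun z => ev g z ≤ 0) with hA2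
  set B2 := B.filter (fun z => ev g z ≤ 0) with hB2
  have hA1s : A1 ⊆ A := Finset.filter_subset _ _
  have hB1s : B1 ⊆ B := Finset.filter_subset _ _
  have hA2s : A2 ⊆ A := Finset.filter_subset _ _
  have hB2s : B2 ⊆ B := Finset.filter_subset _ _
  have hvA0 : v ∈ A0 := Finset.mem_filter.2 ⟨hvA, gv⟩
  have hvA1 : v ∈ A1 := Finset.mem_filter.2 ⟨hvA, gv.ge⟩
  have hvA2 : v ∈ A2 := Finset.mem_filter.2 ⟨hvA, gv.le⟩
  have ha0 : 1 ≤ A0.card := Finset.card_pos.2 ⟨v, hvA0⟩
  have ha0M : A0.card ≤ M := by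
    rcases hH g hNc with h1 | h1
    · exact h1
    · exact le_trans hl0 h1
  -- a1 + a2 = |A| + a0
  have hsumA : A1.card + A2.card = A.card + A0.card := by
    have e1 : A1 ∪ A2 = A := by
      ext z
      simp only [hA1, hA2, Finset.mem_union, Finset.mem_filter]
      constructor
      · rintro (h1 | h1) <;> exact h1.1
      · intro h1
        rcases le_total 0 (ev g z) with h2 | h2
        · exact Or.inl ⟨h1, h2⟩
        · exact Or.inr ⟨h1, h2⟩
    have e2 : A1 ∩ A2 = A0 := by
      ext z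
      simp only [hA1, hA2, hA0, Finset.mem_inter, Finset.mem_filter]
      constructor
      · rintro ⟨⟨h1, h2⟩, _, h3⟩
        exact ⟨h1, le_antisymm h3 h2⟩
      · rintro ⟨h1, h2⟩
        exact ⟨⟨h1, h2.ge⟩, h1, h2.le⟩
    rw [← Finset.card_union_add_card_inter, e1, e2]
  have hd1 : Disjoint A1 B1 := Finset.disjoint_of_subset_left hA1s
    (Finset.disjoint_of_subset_right hB1s hAB)
  have hd2 : Disjoint A2 B2 := Finset.disjoint_of_subset_left hA2s
    (Finset.disjoint_of_subset_right hB2s hAB)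
  have hA1n : A1.Nonempty := ⟨v, hvA1⟩
  have hA2n : A2.Nonempty := ⟨v, hvA2⟩
  have hB1n : B1.Nonempty := Finset.card_pos.1 (lt_of_lt_of_le (Finset.card_pos.2 hA1n) hl1)
  have hB2n : B2.Nonempty := Finset.card_pos.1 (lt_of_lt_of_le (Finset.card_pos.2 hA2n) hl2)
  have hB0n : B0.Nonempty := Finset.card_pos.1 (lt_of_lt_of_le ha0 hl0)
  have hlt1 : A1.card + B1.card < A.card + B.card := by
    obtain ⟨z, hz, hz'⟩ := hneg
    have c1 := Finset.card_le_card hA1s
    have c2 := Finset.card_le_card hB1s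
    rcases Finset.mem_union.1 hz with h1 | h1
    · have : A1.card < A.card := by
        apply Finset.card_lt_card
        refine ⟨hA1s, fun hc => ?_⟩
        exact absurd (Finset.mem_filter.1 (hc h1)).2 (not_le.2 hz')
      omega
    · have : B1.card < B.card := by
        apply Finset.card_lt_card
        refine ⟨hB1s, fun hc => ?_⟩
        exact absurd (Finset.mem_filter.1 (hc h1)).2 (not_le.2 hz')
      omega
  have hlt2 : A2.card + B2.card < A.card + B.card := by
    obtain ⟨z, hz, hz'⟩ := hpos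
    have c1 := Finset.card_le_card hA2s
    have c2 := Finset.card_le_card hB2s
    rcases Finset.mem_union.1 hz with h1 | h1
    · have : A2.card < A.card := by
        apply Finset.card_lt_card
        refine ⟨hA2s, fun hc => ?_⟩
        exact absurd (Finset.mem_filter.1 (hc h1)).2 (not_le.2 hz')
      omega
    · have : B2.card < B.card := by
        apply Finset.card_lt_card
        refine ⟨hB2s, fun hc => ?_⟩
        exact absurd (Finset.mem_filter.1 (hc h1)).2 (not_le.2 hz')
      omega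
  obtain ⟨i1, i1'⟩ := hIH A1 B1 hd1 hA1n hB1n hlt1 (bHm A1 A B1 B M hA1s hB1s hH)
  obtain ⟨i2, i2'⟩ := hIH A2 B2 hd2 hA2n hB2n hlt2 (bHm A2 A B2 B M hA2s hB2s hH)
  rw [min_eq_left hl1] at i1 i1'
  rw [min_eq_left hl2] at i2 i2'
  have supp1 : ∀ z ∈ A1 ∪ B1, 0 ≤ ev g z := by
    intro z hz
    rcases Finset.mem_union.1 hz with h1 | h1 <;> exact (Finset.mem_filter.1 h1).2
  have supp2 : ∀ z ∈ A2 ∪ B2, ev g z ≤ 0 := by
    intro z hz
    rcases Finset.mem_union.1 hz with h1 | h1 <;> exact (Finset.mem_filter.1 h1).2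
  have supp2' : ∀ z ∈ A2 ∪ B2, 0 ≤ ev g' z := by
    intro z hz
    rw [eg']; linarith [supp2 z hz]
  have sub1 : ∀ z ∈ A1 ∪ B1, z ∈ A ∪ B := fun z hz => Finset.union_subset_union hA1s hB1s hz
  have sub2 : ∀ z ∈ A2 ∪ B2, z ∈ A ∪ B := fun z hz => Finset.union_subset_union hA2s hB2s hz
  -- the line families
  have fA2 : A2.filter (fun z => ev g z = 0) = A0 := by
    ext z
    simp only [hA2, hA0, Finset.mem_filter]
    constructor
    · rintro ⟨⟨h1, _⟩, h2⟩; exact ⟨h1, h2⟩
    · rintro ⟨h1, h2⟩; exact ⟨⟨h1, h2.le⟩, h2⟩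
  have fB2 : B2.filter (fun z => ev g z = 0) = B0 := by
    ext z
    simp only [hB2, hB0, Finset.mem_filter]
    constructor
    · rintro ⟨⟨h1, _⟩, h2⟩; exact ⟨h1, h2⟩
    · rintro ⟨h1, h2⟩; exact ⟨⟨h1, h2.le⟩, h2⟩
  have hd0 : Disjoint A0 B0 := Finset.disjoint_of_subset_left (Finset.filter_subset _ _)
    (Finset.disjoint_of_subset_right (Finset.filter_subset _ _) hAB)
  have hz0 : ∀ z ∈ A0 ∪ B0, ev g z = 0 := by
    intro z hz
    rcases Finset.mem_union.1 hz with h1 | h1 <;> exact (Finset.mem_filter.1 h1).2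
  have sub0 : ∀ z ∈ A0 ∪ B0, z ∈ A ∪ B := by
    intro z hz
    rcases Finset.mem_union.1 hz with h1 | h1
    · exact Finset.mem_union_left _ (Finset.mem_filter.1 h1).1
    · exact Finset.mem_union_right _ (Finset.mem_filter.1 h1).1
  have hv1 : ∀ z ∈ A ∪ B, ev g z = 0 → z ≠ v → ev h v < ev h z := by
    intro z hz gz hzv
    rw [hv0]; exact hvm z hz gz hzv
  have hLc : ∀ c : ℕ, (∀ E, Good A0 B0 E → E.card ≤ c) →
      ∀ n1 n2, Fge A1 B1 n1 → Fge A2 B2 n2 → Fge A B (n1 + n2 - c) := by
    intro c hc n1 n2 f1 f2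
    refine hCUT A B A1 B1 A2 B2 g n1 n2 c hA1s hB1s hA2s hB2s supp1 supp2 ?_ f1 f2
    intro E hE
    rw [fA2, fB2] at hE
    exact hc E hE
  have hLIN3 : (∀ a ∈ A0, ∀ b ∈ B0, ev h a < ev h b) → ∀ E, Good A0 B0 E → E.card ≤ 1 :=
    fun hh E hE => (hLIN A0 B0 h g hd0 hd hz0 E hE).2.2 hh
  have hLIN2 : ∀ E, Good A0 B0 E → E.card + 1 ≤ 2 * A0.card := by
    intro E hE
    refine (hLIN A0 B0 h g hd0 hd hz0 E hE).2.1 ⟨v, hvA0, ?_⟩
    intro z hz
    by_cases hzv : z = v
    · rw [hzv]
    · exact (hv1 z (sub0 z hz) (hz0 z hz) hzv).le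
  by_cases hone : A0.card = 1
  · -- exactly one point
    have huniq : ∀ z ∈ A, ev g z = 0 → z = v := by
      intro z hz gz
      obtain ⟨u, hu⟩ := Finset.card_eq_one.1 hone
      have e1 : z ∈ A0 := Finset.mem_filter.2 ⟨hz, gz⟩
      have e2 := hvA0
      rw [hu, Finset.mem_singleton] at e1 e2
      rw [e1, e2]
    have er1 : EndRun A1 B1 := by
      refine mcu75_one hERM A1 B1 g h v hd1 hd hvA1 gv supp1 ?_ ?_ ?_
      · intro z hz gz hzv
        exact hv1 z (sub1 z hz) gz hzv
      · intro z hz gz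
        exact huniq z (hA1s hz) gz
      · obtain ⟨b, hb⟩ := hB0n
        have := Finset.mem_filter.1 hb
        exact ⟨b, Finset.mem_filter.2 ⟨this.1, this.2.ge⟩, this.2⟩
    have er2 : EndRun A2 B2 := by
      refine mcu75_one hERM A2 B2 g' h v hd2 hd' hvA2 (by rw [eg', gv, neg_zero]) supp2' ?_ ?_ ?_
      · intro z hz gz hzv
        rw [eg', neg_eq_zero] at gz
        exact hv1 z (sub2 z hz) gz hzv
      · intro z hz gz
        rw [eg', neg_eq_zero] at gz
        exact huniq z (hA2s hz) gz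
      · obtain ⟨b, hb⟩ := hB0n
        have := Finset.mem_filter.1 hb
        exact ⟨b, Finset.mem_filter.2 ⟨this.1, this.2.le⟩, by rw [eg', this.2, neg_zero]⟩
    have hc : ∀ E, Good A0 B0 E → E.card ≤ 1 := by
      intro E hE
      have := hLIN2 E hE
      omega
    have := hLc 1 hc _ _ (i1' er1) (i2' er2)
    refine bMono A B _ _ ?_ this
    omega
  · -- two points, M = 2
    have h2 : A0.card = 2 := by omega
    have hM : M = 2 := by omega
    subst hM
    -- the neighbour of v on the line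
    have hne : ((A0 ∪ B0).erase v).Nonempty := by
      obtain ⟨b, hb⟩ := hB0n
      refine ⟨b, Finset.mem_erase.2 ⟨?_, Finset.mem_union_right _ hb⟩⟩
      rintro rfl
      exact Finset.disjoint_left.1 hd0 hvA0 hb
    obtain ⟨y, hy, hymin⟩ := Finset.exists_min_image _ (fun z => ev h z) hne
    obtain ⟨hyv, hy0⟩ := Finset.mem_erase.1 hy
    have gy : ev g y = 0 := hz0 y hy0
    have hvy : ev h v < ev h y := hv1 y (sub0 y hy0) gy hyv
    have hrest : ∀ z ∈ A ∪ B, ev g z = 0 → z = v ∨ z = y ∨ ev h y < ev h z := by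
      intro z hz gz
      by_cases hzv : z = v
      · exact Or.inl hzv
      by_cases hzy : z = y
      · exact Or.inr (Or.inl hzy)
      right; right
      have hz' : z ∈ (A0 ∪ B0).erase v := by
        refine Finset.mem_erase.2 ⟨hzv, ?_⟩
        rcases Finset.mem_union.1 hz with h1 | h1
        · exact Finset.mem_union_left _ (Finset.mem_filter.2 ⟨h1, gz⟩)
        · exact Finset.mem_union_right _ (Finset.mem_filter.2 ⟨h1, gz⟩)
      refine lt_of_le_of_ne (hymin z hz') ?_
      intro he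
      exact hzy (lin75_frame h g hd z y he.symm (by rw [gz, gy]))
    rcases Finset.mem_union.1 hy0 with hyA | hyB
    · -- the neighbour is in `A`
      have hAvy : ∀ a ∈ A0, a = v ∨ a = y := by
        intro a ha
        by_contra hc
        push Not at hc
        have h3 : ({v, y, a} : Finset Pt) ⊆ A0 := by
          intro z hz
          simp only [Finset.mem_insert, Finset.mem_singleton] at hz
          rcases hz with rfl | rfl | rfl
          · exact hvA0
          · exact hyA
          · exact ha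
        have h4 := Finset.card_le_card h3
        rw [Finset.card_eq_three.2 ⟨v, y, a, hyv.symm, hc.1.symm, hc.2.symm, rfl⟩, h2] at h4
        omega
      have hbef : ∀ a ∈ A0, ∀ b ∈ B0, ev h a < ev h b := by
        intro a ha b hb
        have hbAB : b ∈ A0 ∪ B0 := Finset.mem_union_right _ hb
        have hbv : b ≠ v := by
          rintro rfl
          exact Finset.disjoint_left.1 hd0 hvA0 hb
        have hby : b ≠ y := by
          rintro rfl
          exact Finset.disjoint_left.1 hd0 hyA hb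
        rcases hrest b (sub0 b hbAB) (hz0 b hbAB) with h1 | h1 | h1
        · exact absurd h1 hbv
        · exact absurd h1 hby
        · rcases hAvy a ha with rfl | rfl
          · exact lt_trans hvy h1
          · exact h1
      have := hLc 1 (hLIN3 hbef) _ _ i1 i2
      refine bMono A B _ _ ?_ this
      omega
    · -- the neighbour is in `B`
      obtain ⟨hyBB, _⟩ := Finset.mem_filter.1 hyB
      have er1 : EndRun A1 B1 := by
        refine mcu75_two A1 B1 g h v y hd hvA1 gv (Finset.mem_filter.2 ⟨hyBB, gy.ge⟩) gy supp1 hvy ?_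
        intro z hz gz
        exact hrest z (sub1 z hz) gz
      have er2 : EndRun A2 B2 := by
        refine mcu75_two A2 B2 g' h v y hd' hvA2 (by rw [eg', gv, neg_zero])
          (Finset.mem_filter.2 ⟨hyBB, gy.le⟩) (by rw [eg', gy, neg_zero]) supp2' hvy ?_
        intro z hz gz
        rw [eg', neg_eq_zero] at gz
        exact hrest z (sub2 z hz) gz
      have hc : ∀ E, Good A0 B0 E → E.card ≤ 3 := by
        intro E hE
        have := hLIN2 E hE
        omega
      have := hLc 3 hc _ _ (i1' er1) (i2' er2)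
      refine bMono A B _ _ ?_ this
      omega

end VK
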