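import Pool.Agent.H53.VK.Stm

/-! # Crew VK, part RD1: a disconnecting set gives a blocked partition -/

set_option autoImplicit false

namespace VK

theorem rd75_sub_left (a b r : Pt) (hr : r ∈ openSegment ℝ a b) :
    openSegment ℝ r b ⊆ openSegment ℝ a b := by
  obtain ⟨x, y, hx, hy, hxy, rfl⟩ := hr
  rintro z ⟨u, w, hu, hw, huw, rfl⟩
  refine ⟨u * x, u * y + w, by positivity, by positivity, ?_, ?_⟩
  · have : u * x + (u * y + w) = u * (x + y) + w := by ring
    rw [this, hxy, mul_one, huw]
  · module

theorem rd75_sub_right (a b r : Pt) (hr : r ∈ openSegment ℝ a b) :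
    openSegment ℝ a r ⊆ openSegment ℝ a b := by
  rw [openSegment_symm ℝ a r, openSegment_symm ℝ a b]
  rw [openSegment_symm ℝ a b] at hr
  exact rd75_sub_left b a r hr

theorem RD1_proved : RD1_stmt := by
  classical
  intro P G hG C hCP hcard hnc
  set S : Set Pt := (P : Set Pt) \ (C : Set Pt) with hS
  -- S is nonempty
  have hSne : Nonempty S := by
    obtain ⟨p, hp, hpC⟩ := Finset.exists_mem_notMem_of_card_lt_card hcard
    exact ⟨⟨p, by simpa [hS] using ⟨hp, hpC⟩⟩⟩
  have hnp : ¬ (G.induce S).Preconnected := by
    intro h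
    exact hnc ((SimpleGraph.connected_iff _).2 ⟨h, hSne⟩)
  unfold SimpleGraph.Preconnected at hnp
  push Not at hnp
  obtain ⟨u, w, huw⟩ := hnp
  let R : Pt → Prop := fun p => ∃ hp : p ∈ S, (G.induce S).Reachable u ⟨p, hp⟩
  let A : Finset Pt := (P \ C).filter (fun p => R p)
  let B : Finset Pt := (P \ C).filter (fun p => ¬ R p)
  have hmemS : ∀ p, p ∈ P \ C ↔ p ∈ S := by intro p; simp [hS]
  have hA : ∀ p, p ∈ A ↔ p ∈ S ∧ R p := by intro p; simp only [A, Finset.mem_filter, hmemS]
  have hB : ∀ p, p ∈ B ↔ p ∈ S ∧ ¬ R p := by intro p; simp only [B, Finset.mem_filter, hmemS]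
  have hSP : ∀ p, p ∈ S → p ∈ P := fun p hp => (Finset.mem_sdiff.1 ((hmemS p).2 hp)).1
  have hSC : ∀ p, p ∈ S → p ∉ C := fun p hp => (Finset.mem_sdiff.1 ((hmemS p).2 hp)).2
  have hABd : Disjoint A B := by
    rw [Finset.disjoint_left]
    intro p hp hp'
    exact ((hB p).1 hp').2 ((hA p).1 hp).2
  refine ⟨A, B, ⟨u, (hA _).2 ⟨u.2, u.2, ?_⟩⟩, ⟨w, (hB _).2 ⟨w.2, ?_⟩⟩, hABd, ?_, ?_, ?_, ?_⟩
  · exact SimpleGraph.Reachable.refl u
  · rintro ⟨hp, h⟩
    exact huw h
  · rw [Finset.disjoint_left]
    intro p hp
    exact hSC p ((hA p).1 hp).1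
  · rw [Finset.disjoint_left]
    intro p hp
    exact hSC p ((hB p).1 hp).1
  · ext p
    simp only [Finset.mem_union, hA, hB]
    constructor
    · rintro ((⟨h, _⟩ | ⟨h, _⟩) | h)
      · exact hSP p h
      · exact hSP p h
      · exact hCP h
    · intro h
      by_cases hc : p ∈ C
      · exact Or.inr hc
      · left
        have hp : p ∈ S := (hmemS p).1 (Finset.mem_sdiff.2 ⟨h, hc⟩)
        by_cases hR : R p
        · exact Or.inl ⟨hp, hR⟩
        · exact Or.inr ⟨hp, hR⟩
  · -- blocked
    have key : ∀ n : ℕ, ∀ a ∈ A, ∀ b ∈ B, (P.filter (fun z => z ∈ openSegment ℝ a b)).card = n →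
        ∃ c ∈ C, c ∈ openSegment ℝ a b := by
      intro n
      induction n using Nat.strong_induction_on with
      | _ n ih =>
        intro a ha b hb hn
        have hne : a ≠ b := fun h => Finset.disjoint_left.1 hABd ha (h ▸ hb)
        by_cases hex : ∃ r ∈ P, r ∈ openSegment ℝ a b
        · obtain ⟨r, hrP, hr⟩ := hex
          have hra : r ≠ a := by
            rintro rfl
            exact hne (left_mem_openSegment_iff.1 hr)
          have hrb : r ≠ b := by
            rintro rfl
            exact hne (right_mem_openSegment_iff.1 hr)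
          by_cases hrC : r ∈ C
          · exact ⟨r, hrC, hr⟩
          have hrS : r ∈ S := (hmemS r).1 (Finset.mem_sdiff.2 ⟨hrP, hrC⟩)
          by_cases hR : R r
          · have hrA : r ∈ A := (hA r).2 ⟨hrS, hR⟩
            have hlt : (P.filter (fun z => z ∈ openSegment ℝ r b)).card < n := by
              rw [← hn]
              apply Finset.card_lt_card
              refine ⟨?_, ?_⟩
              · intro z hz
                rw [Finset.mem_filter] at hz ⊢
                exact ⟨hz.1, rd75_sub_left a b r hr hz.2⟩
              · intro h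
                have := h (Finset.mem_filter.2 ⟨hrP, hr⟩)
                rw [Finset.mem_filter] at this
                exact hrb (left_mem_openSegment_iff.1 this.2)
            obtain ⟨c, hc, hc'⟩ := ih _ hlt r hrA b hb rfl
            exact ⟨c, hc, rd75_sub_left a b r hr hc'⟩
          · have hrB : r ∈ B := (hB r).2 ⟨hrS, hR⟩
            have hlt : (P.filter (fun z => z ∈ openSegment ℝ a r)).card < n := by
              rw [← hn]
              apply Finset.card_lt_card
              refine ⟨?_, ?_⟩
              · intro z hz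
                rw [Finset.mem_filter] at hz ⊢
                exact ⟨hz.1, rd75_sub_right a b r hr hz.2⟩
              · intro h
                have := h (Finset.mem_filter.2 ⟨hrP, hr⟩)
                rw [Finset.mem_filter] at this
                exact hra (right_mem_openSegment_iff.1 this.2).symm
            obtain ⟨c, hc, hc'⟩ := ih _ hlt a ha r hrB rfl
            exact ⟨c, hc, rd75_sub_right a b r hr hc'⟩
        · exfalso
          push Not at hex
          obtain ⟨haS, haS', hra⟩ := (hA a).1 ha
          obtain ⟨hbS, hnb⟩ := (hB b).1 hb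
          have hadj : G.Adj a b := (hG a b).2 ⟨hSP a haS, hSP b hbS, hne, hex⟩
          apply hnb
          refine ⟨hbS, hra.trans ?_⟩
          apply SimpleGraph.Adj.reachable
          simpa using hadj
    intro a ha b hb
    exact key _ a ha b hb rfl

end VK
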